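import Pool.Agent.Lib.MP_6bd702_z.GridDefs

/-!
# Two arms across an annulus: definitions
-/

set_option autoImplicit false

namespace Pool.Agent.Perc

open Finset

/-- The faces of the rectangle `[-r, r + 1] × [-r, r]`. -/
noncomputable def DF (r : ℕ) : Finset (ℤ × ℤ) := RF (-(r : ℤ)) (r + 1) (-(r : ℤ)) r

/-- The faces between the rectangles `[-r, r + 1] × [-r, r]` and `[-R, R + 1] × [-R, R]` contain a
path of diagonals which joins the boundaries of the two rectangles and whose vertices have a
coordinate sum congruent to `c` mod 2. -/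
def AnnArm (c : ℤ) (r R : ℕ) : Set Cfg :=
  {ω | ∃ u v, OnBd (-(r : ℤ)) (r + 1) (-(r : ℤ)) r u ∧ OnBd (-(R : ℤ)) (R + 1) (-(R : ℤ)) R v ∧
    (u.1 + u.2 - c) % 2 = 0 ∧ Conn ω ((DF R \ DF r : Finset (ℤ × ℤ)) : Set (ℤ × ℤ)) u v}

/-- The probability that both an open path (even vertices) and a dual open path (odd vertices) cross
the annulus between the two rectangles. -/
noncomputable def annP (r R : ℕ) : ℝ := pr (DF R \ DF r) (AnnArm 0 r R ∩ AnnArm 1 r R)

end Pool.Agent.Perc
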