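import Pool.Agent.Lib.MP_6bd702_z.Main
import Pool.Agent.Lib.MP_6bd702_ann.AnnDefs

/-!
# Two arms across an annulus
-/

set_option autoImplicit false

namespace Pool.Agent.AnnT

open Finset Pool.Agent.Perc Pool.Agent.PercD

variable {ω : Cfg} {x₀ x₁ y₀ y₁ : ℤ}

/-- A set of unit edges which is closed under the matching in the faces of `F`. -/
def ClM (ω : Cfg) (F : Set (ℤ × ℤ)) (M : Set UE) : Prop :=
  ∀ f ∈ F, ∀ a a', Mt ω f a a' → (a ∈ M ↔ a' ∈ M)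

theorem evenAt_of_cl {F : Set (ℤ × ℤ)} {M : Set UE} (hM : ClM ω F M) {f : ℤ × ℤ} (hf : f ∈ F) :
    EvenAt M f := by
  unfold EvenAt
  cases h : ω f with
  | true =>
    have h1 := hM f hf _ _ (Or.inl ⟨h, Or.inl ⟨rfl, rfl⟩⟩ : Mt ω f (bo f) (ri f))
    have h2 := hM f hf _ _ (Or.inl ⟨h, Or.inr (Or.inr (Or.inl ⟨rfl, rfl⟩))⟩ :
      Mt ω f (le' f) (to' f))
    rw [ind2_congr h1, ind2_congr h2, z2_add_self, z2_add_self, add_zero]
  | false =>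
    have h1 := hM f hf _ _ (Or.inr ⟨h, Or.inl ⟨rfl, rfl⟩⟩ : Mt ω f (bo f) (le' f))
    have h2 := hM f hf _ _ (Or.inr ⟨h, Or.inr (Or.inr (Or.inl ⟨rfl, rfl⟩))⟩ :
      Mt ω f (to' f) (ri f))
    rw [ind2_congr h1, ind2_congr h2]
    generalize ind2 (le' f ∈ M) = p1
    generalize ind2 (ri f ∈ M) = p2
    revert p1 p2
    decide

theorem pot_bondM {M : Set UE} (hM : ClM ω (RF x₀ x₁ y₀ y₁ : Set (ℤ × ℤ)) M) {p q : ℤ × ℤ}
    (h : Bond ω (RF x₀ x₁ y₀ y₁ : Set (ℤ × ℤ)) p q) : pot x₀ y₀ M p = pot x₀ y₀ M q := by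
  obtain ⟨x, y, hf, h⟩ := h
  have hr := mem_RF'.1 hf
  simp only at hr
  have hE : ∀ f ∈ RF x₀ x₁ y₀ y₁, EvenAt M f := fun f hf => evenAt_of_cl hM (mem_coe.2 hf)
  have e1 := pot_hor hE (x := x) (y := y) (by omega) (by omega) (by omega) (by omega)
  have e2 := pot_ver (x₀ := x₀) (y₀ := y₀) (M := M) (x := x) (y := y) (by omega)
  have e3 := pot_ver (x₀ := x₀) (y₀ := y₀) (M := M) (x := x + 1) (y := y) (by omega)
  have key : (ω (x, y) = true → pot x₀ y₀ M (x, y) = pot x₀ y₀ M (x + 1, y + 1)) ∧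
      (ω (x, y) = false → pot x₀ y₀ M (x, y + 1) = pot x₀ y₀ M (x + 1, y)) := by
    constructor
    · intro ht
      have h1 := hM (x, y) hf _ _ (Or.inl ⟨ht, Or.inl ⟨rfl, rfl⟩⟩ :
        Mt ω (x, y) (bo (x, y)) (ri (x, y)))
      have h2 : ind2 (((x, y, false) : UE) ∈ M) = ind2 (((x + 1, y, true) : UE) ∈ M) :=
        ind2_congr h1
      rw [e3, e1, h2, add_assoc, z2_add_self, add_zero]
    · intro ht
      have h1 := hM (x, y) hf _ _ (Or.inr ⟨ht, Or.inl ⟨rfl, rfl⟩⟩ :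
        Mt ω (x, y) (bo (x, y)) (le' (x, y)))
      have h2 : ind2 (((x, y, false) : UE) ∈ M) = ind2 (((x, y, true) : UE) ∈ M) :=
        ind2_congr h1
      rw [e2, e1, h2]
  rcases h with ⟨ht, (⟨rfl, rfl⟩ | ⟨rfl, rfl⟩)⟩ | ⟨ht, (⟨rfl, rfl⟩ | ⟨rfl, rfl⟩)⟩
  · exact key.1 ht
  · exact (key.1 ht).symm
  · exact key.2 ht
  · exact (key.2 ht).symm

theorem pot_connM {M : Set UE} (hM : ClM ω (RF x₀ x₁ y₀ y₁ : Set (ℤ × ℤ)) M) {p q : ℤ × ℤ}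
    (h : Conn ω (RF x₀ x₁ y₀ y₁ : Set (ℤ × ℤ)) p q) : pot x₀ y₀ M p = pot x₀ y₀ M q := by
  induction h with
  | refl => rfl
  | tail _ hb ih => rw [ih, pot_bondM hM hb]

/-- No boundary edge in `M`: the potential vanishes on the boundary. -/
theorem pot_bd {M : Set UE} (hM : ClM ω (RF x₀ x₁ y₀ y₁ : Set (ℤ × ℤ)) M)
    (hb : ∀ a, BdE x₀ x₁ y₀ y₁ a → a ∉ M) {w : ℤ × ℤ} (hw : OnBd x₀ x₁ y₀ y₁ w) :
    pot x₀ y₀ M w = 0 := by
  have hE : ∀ f ∈ RF x₀ x₁ y₀ y₁, EvenAt M f := fun f hf => evenAt_of_cl hM (mem_coe.2 hf)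
  obtain ⟨x, y⟩ := w
  obtain ⟨h0, h1, h2, h3, h4⟩ := hw
  simp only at h0 h1 h2 h3 h4
  have hbot : ∑ i ∈ Ico x₀ x, ind2 (((i, y₀, false) : UE) ∈ M) = 0 := by
    refine Finset.sum_eq_zero fun i hi => ind2_neg (hb _ (Or.inl ⟨rfl, ?_, ?_, Or.inl rfl⟩))
    · rw [mem_Ico] at hi
      exact hi.1
    · rw [mem_Ico] at hi
      exact lt_of_lt_of_le hi.2 h2
  have hver : ∀ x, (x = x₀ ∨ x = x₁) → ∀ y ≤ y₁,
      ∑ j ∈ Ico y₀ y, ind2 (((x, j, true) : UE) ∈ M) = 0 := by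
    intro x hx y hy
    refine Finset.sum_eq_zero fun j hj => ind2_neg (hb _ (Or.inr ⟨rfl, ?_⟩))
    rw [mem_Ico] at hj
    simp only
    omega
  rcases h0 with h0 | h0 | h0 | h0
  · rw [pot_eq]
    simp only
    rw [hbot, hver x (Or.inl h0) y h4, add_zero]
  · rw [pot_eq]
    simp only
    rw [hbot, hver x (Or.inr h0) y h4, add_zero]
  · rw [pot_eq]
    simp only
    rw [hbot, h0, Ico_self, sum_empty, add_zero]
  · rw [h0]
    rw [h0] at h3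
    clear h4 hbot h0
    revert h2
    induction x, h1 using Int.leInduction with
    | base =>
      intro _
      rw [pot_eq]
      simp only [Ico_self, sum_empty, zero_add]
      exact hver x₀ (Or.inl rfl) y₁ le_rfl
    | succ x hx ih =>
      intro hx1
      rw [pot_hor hE hx (by omega) h3 le_rfl, ih (by omega), zero_add]
      exact ind2_neg (hb _ (Or.inl ⟨rfl, hx, Int.lt_of_add_one_le hx1, Or.inr rfl⟩))

/-- All unit edges of a rectangle in `M`: the potential alternates there. -/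
theorem pot_alt {M : Set UE} (hM : ClM ω (RF x₀ x₁ y₀ y₁ : Set (ℤ × ℤ)) M) {a b c d : ℤ}
    (ha : x₀ ≤ a) (hb : b ≤ x₁) (hc : y₀ ≤ c) (hd : d ≤ y₁)
    (hin : ∀ e : UE, InR a b c d (ua e) → InR a b c d (ub e) → e ∈ M) {w w' : ℤ × ℤ}
    (hw : InR a b c d w) (hw' : InR a b c d w') :
    pot x₀ y₀ M w + ((w.1 + w.2 : ℤ) : ZMod 2) = pot x₀ y₀ M w' + ((w'.1 + w'.2 : ℤ) : ZMod 2) := by
  have hE : ∀ f ∈ RF x₀ x₁ y₀ y₁, EvenAt M f := fun f hf => evenAt_of_cl hM (mem_coe.2 hf)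
  have key : ∀ x y : ℤ, InR a b c d (x, y) →
      pot x₀ y₀ M (x, y) + ((x + y : ℤ) : ZMod 2) = pot x₀ y₀ M (a, c) + ((a + c : ℤ) : ZMod 2) := by
    have two : ∀ t s : ZMod 2, t + 1 + (s + 1) = t + s := by decide
    -- the bottom row
    have row : ∀ x, a ≤ x → x ≤ b → c ≤ d →
        pot x₀ y₀ M (x, c) + ((x + c : ℤ) : ZMod 2) =
          pot x₀ y₀ M (a, c) + ((a + c : ℤ) : ZMod 2) := by
      intro x hx
      induction x, hx using Int.leInduction with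
      | base => intro _ _; rfl
      | succ x hx ih =>
        intro h1 h2
        rw [pot_hor hE (by omega) (by omega) (by omega) (by omega), ind2_pos (hin _ (by
            rw [ua_mk]; unfold InR; simp only; omega) (by
            rw [ub_false]; unfold InR; simp only; omega)), ← ih (by omega) h2]
        have : ((x + 1 + c : ℤ) : ZMod 2) = ((x + c : ℤ) : ZMod 2) + 1 := by push_cast; ring
        rw [this, two]
    intro x y hxy
    unfold InR at hxy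
    simp only at hxy
    obtain ⟨h1, h2, h3, h4⟩ := hxy
    rw [← row x h1 h2 (by omega)]
    clear row
    revert h4
    induction y, h3 using Int.leInduction with
    | base => intro _; rfl
    | succ y hy ih =>
      intro h4
      rw [pot_ver (by omega), ind2_pos (hin _ (by
            rw [ua_mk]; unfold InR; simp only; omega) (by
            rw [ub_true]; unfold InR; simp only; omega)), ← ih (by omega)]
      have : ((x + (y + 1) : ℤ) : ZMod 2) = ((x + y : ℤ) : ZMod 2) + 1 := by push_cast; ring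
      rw [this, two]
  obtain ⟨x, y⟩ := w
  obtain ⟨x', y'⟩ := w'
  simp only
  rw [key x y hw, key x' y' hw']

/-- An arm of each colour from the box of radius `d` gives a component of the matching which joins
the box to the boundary. -/
theorem pev_of_arms {v : ℤ × ℤ} {d w : ℤ} (hdw : d ≤ w)
    (h0 : ω ∈ ArmB 0 v d w) (h1 : ω ∈ ArmB 1 v d w) : ω ∈ Pev v d w := by
  by_contra hP
  set F : Set (ℤ × ℤ) := (BR v w : Set (ℤ × ℤ)) with hF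
  set M : Set UE := {a | ∃ b, InE v d b ∧ a ∈ MM ω F b} with hM
  have hcl : ClM ω (RF (v.1 - w) (v.1 + w) (v.2 - w) (v.2 + w) : Set (ℤ × ℤ)) M := by
    intro f hf a a' hm
    constructor
    · rintro ⟨b, hb, hab⟩
      exact ⟨b, hb, MM_step hf hm hab⟩
    · rintro ⟨b, hb, hab⟩
      exact ⟨b, hb, MM_step hf hm.symm hab⟩
  have hbd : ∀ a, BdE (v.1 - w) (v.1 + w) (v.2 - w) (v.2 + w) a → a ∉ M := by
    rintro a ha ⟨b, hb, hab⟩
    exact hP ⟨b, hb, a, hab, ha⟩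
  have hin : ∀ e : UE, InR (v.1 - d) (v.1 + d) (v.2 - d) (v.2 + d) (ua e) →
      InR (v.1 - d) (v.1 + d) (v.2 - d) (v.2 + d) (ub e) → e ∈ M := fun e h1 h2 =>
    ⟨e, ⟨h1, h2⟩, mem_MM_self⟩
  obtain ⟨u, z, a1, a2, a3, a4, a5, a6, a7⟩ := h0
  obtain ⟨u', z', b1, b2, b3, b4, b5, b6, b7⟩ := h1
  have p1 := pot_connM hcl a7
  have p2 := pot_connM hcl b7
  rw [pot_bd hcl hbd a6] at p1
  rw [pot_bd hcl hbd b6] at p2
  have p3 := pot_alt hcl (by omega) (by omega) (by omega) (by omega) hin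
    (w := u) (w' := u') ⟨a1, a2, a3, a4⟩ ⟨b1, b2, b3, b4⟩
  rw [p1, p2, zero_add, zero_add] at p3
  have q1 : ((u.1 + u.2 : ℤ) : ZMod 2) = 0 := by
    rw [ZMod.intCast_zmod_eq_zero_iff_dvd]
    push_cast
    omega
  have q2 : ((u'.1 + u'.2 : ℤ) : ZMod 2) = 1 := by
    have : ((u'.1 + u'.2 - 1 : ℤ) : ZMod 2) = 0 := by
      rw [ZMod.intCast_zmod_eq_zero_iff_dvd]
      push_cast
      omega
    push_cast at this ⊢
    rw [sub_eq_zero] at this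
    exact this
  rw [q1, q2] at p3
  exact absurd p3 (by decide)

theorem mem_DF {r : ℕ} {f : ℤ × ℤ} : f ∈ DF r ↔ -(r : ℤ) ≤ f.1 ∧ f.1 < r + 1 ∧ -(r : ℤ) ≤ f.2 ∧
    f.2 < r := by
  unfold DF
  exact mem_RF

theorem depOn_AnnArm (c : ℤ) (r R : ℕ) :
    DepOn ((DF R \ DF r : Finset (ℤ × ℤ)) : Set (ℤ × ℤ)) (AnnArm c r R) := by
  intro ω ω' h
  simp only [AnnArm, Set.mem_ofPred_eq, GridA.conn_iff _ h]

theorem annArm_sub {c : ℤ} {r R : ℕ} (hr : r + 1 ≤ R) :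
    AnnArm c r R ⊆ ArmB c (0, 0) ((r : ℤ) + 1) R := by
  rintro ω ⟨u, v, ⟨-, h1, h2, h3, h4⟩, ⟨h5, h6, h7, h8, h9⟩, h10, h11⟩
  obtain ⟨z, hz, hz'⟩ := Conn.toBd (x₀ := -(R : ℤ)) (x₁ := R) (y₀ := -(R : ℤ)) (y₁ := R) h11
    (by omega) (by omega)
  refine ⟨u, z, by simp only; omega, by simp only; omega, by simp only; omega,
    by simp only; omega, h10, ?_, ?_⟩
  · simpa using hz'
  · unfold RFb
    simpa using Conn.mono Set.inter_subset_right hz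

theorem annP_le : ∃ C : ℝ, 0 < C ∧ ∀ r R : ℕ, r ≤ R →
    annP r R ≤ C * (((r : ℝ) + 1) / (R + 1)) ^ (1 / 4 : ℝ) := by
  obtain ⟨C, hC, h⟩ := pi_bound upperHyp tailHyp
  refine ⟨2 * C + 1, by positivity, fun r R hrR => ?_⟩
  have hx0 : (0 : ℝ) < ((r : ℝ) + 1) / (R + 1) := by positivity
  rcases Nat.lt_or_ge r R with hlt | hge
  · have hR0 : (0 : ℝ) < R := by exact_mod_cast (by omega : 0 < R)
    have hsub : ∀ ω ∈ AnnArm 0 r R ∩ AnnArm 1 r R, ω ∈ Pev (0, 0) ((r + 1 : ℕ) : ℤ) (R : ℤ) := by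
      rintro ω ⟨h0, h1⟩
      have e : ((r + 1 : ℕ) : ℤ) = (r : ℤ) + 1 := by push_cast; ring
      rw [e]
      exact pev_of_arms (by omega) (annArm_sub hlt h0) (annArm_sub hlt h1)
    have hdep : DepOn ((DF R \ DF r : Finset (ℤ × ℤ)) : Set (ℤ × ℤ)) (AnnArm 0 r R ∩ AnnArm 1 r R) :=
      depOn_inter' (depOn_AnnArm 0 r R) (depOn_AnnArm 1 r R)
    have hdP : DepOn ((BR (0, 0) (R : ℤ) : Finset (ℤ × ℤ)) : Set (ℤ × ℤ))
        (Pev (0, 0) ((r + 1 : ℕ) : ℤ) (R : ℤ)) := depOn_Pev _ _ _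
    have h1 : annP r R ≤ pr (BR (0, 0) (R : ℤ)) (Pev (0, 0) ((r + 1 : ℕ) : ℤ) (R : ℤ)) := by
      unfold annP
      rw [← pr_eq_of_depOn hdep (S' := (DF R \ DF r) ∪ BR (0, 0) (R : ℤ)) subset_union_left,
        ← pr_eq_of_depOn hdP (S' := (DF R \ DF r) ∪ BR (0, 0) (R : ℤ)) subset_union_right]
      exact pr_mono _ hsub
    refine h1.trans ((h (0, 0) (r + 1) R (by omega) hlt).trans ?_)
    have h2 : (((r + 1 : ℕ) : ℝ) / R) ^ (1 / 4 : ℝ) ≤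
        2 * (((r : ℝ) + 1) / (R + 1)) ^ (1 / 4 : ℝ) := by
      have e1 : ((r + 1 : ℕ) : ℝ) / R ≤ 2 * (((r : ℝ) + 1) / (R + 1)) := by
        push_cast
        rw [mul_div_assoc', div_le_div_iff₀ hR0 (by positivity)]
        have : (1 : ℝ) ≤ R := by exact_mod_cast (by omega : 1 ≤ R)
        nlinarith
      calc (((r + 1 : ℕ) : ℝ) / R) ^ (1 / 4 : ℝ)
          ≤ (2 * (((r : ℝ) + 1) / (R + 1))) ^ (1 / 4 : ℝ) :=
            Real.rpow_le_rpow (by positivity) e1 (by norm_num)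
        _ = (2 : ℝ) ^ (1 / 4 : ℝ) * (((r : ℝ) + 1) / (R + 1)) ^ (1 / 4 : ℝ) :=
            Real.mul_rpow (by norm_num) hx0.le
        _ ≤ 2 * (((r : ℝ) + 1) / (R + 1)) ^ (1 / 4 : ℝ) := by
            refine mul_le_mul_of_nonneg_right ?_ (by positivity)
            calc (2 : ℝ) ^ (1 / 4 : ℝ) ≤ (2 : ℝ) ^ (1 : ℝ) :=
                  Real.rpow_le_rpow_of_exponent_le (by norm_num) (by norm_num)
              _ = 2 := Real.rpow_one 2
    have h3 : (0 : ℝ) ≤ (((r : ℝ) + 1) / (R + 1)) ^ (1 / 4 : ℝ) := by positivity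
    calc C * (((r + 1 : ℕ) : ℝ) / R) ^ (1 / 4 : ℝ)
        ≤ C * (2 * (((r : ℝ) + 1) / (R + 1)) ^ (1 / 4 : ℝ)) :=
          mul_le_mul_of_nonneg_left h2 hC.le
      _ ≤ (2 * C + 1) * (((r : ℝ) + 1) / (R + 1)) ^ (1 / 4 : ℝ) := by nlinarith
  · have e : r = R := le_antisymm hrR hge
    subst e
    rw [div_self (by positivity), Real.one_rpow, mul_one]
    have := pr_le_one (DF r \ DF r) (AnnArm 0 r r ∩ AnnArm 1 r r)
    unfold annP
    linarith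

/-- The last part of a path, outside a rectangle. -/
theorem last_exit {F : Set (ℤ × ℤ)} {u v : ℤ × ℤ} (h : Conn ω F u v)
    (hu : x₀ ≤ u.1 ∧ u.1 ≤ x₁ ∧ y₀ ≤ u.2 ∧ u.2 ≤ y₁) :
    (x₀ ≤ v.1 ∧ v.1 ≤ x₁ ∧ y₀ ≤ v.2 ∧ v.2 ≤ y₁) ∨
      ∃ w, OnBd x₀ x₁ y₀ y₁ w ∧ Conn ω (F \ (RF x₀ x₁ y₀ y₁ : Set (ℤ × ℤ))) w v := by
  induction h with
  | refl => exact Or.inl hu
  | @tail a c _ hb ih =>
    obtain ⟨x, y, hm, hh⟩ := hb
    by_cases hin : (x, y) ∈ (RF x₀ x₁ y₀ y₁ : Set (ℤ × ℤ))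
    · left
      rw [mem_RF'] at hin
      simp only at hin
      rcases hh with ⟨-, ⟨rfl, rfl⟩ | ⟨rfl, rfl⟩⟩ | ⟨-, ⟨rfl, rfl⟩ | ⟨rfl, rfl⟩⟩ <;>
        simp only <;> omega
    · right
      have hb' : Bond ω (F \ (RF x₀ x₁ y₀ y₁ : Set (ℤ × ℤ))) a c := ⟨x, y, ⟨hm, hin⟩, hh⟩
      rcases ih with ih | ⟨w, hw, hw'⟩
      · refine ⟨a, ?_, Relation.ReflTransGen.single hb'⟩
        rw [mem_RF'] at hin
        simp only at hin
        unfold OnBd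
        rcases hh with ⟨-, ⟨rfl, rfl⟩ | ⟨rfl, rfl⟩⟩ | ⟨-, ⟨rfl, rfl⟩ | ⟨rfl, rfl⟩⟩ <;>
          simp only at ih ⊢ <;> omega
      · exact ⟨w, hw, hw'.tail hb'⟩

/-- A path from the inner rectangle to the boundary of a large box contains an arm across the
annulus. -/
theorem annArm_of_conn {c : ℤ} {r R : ℕ} (hrR : r ≤ R) {F : Set (ℤ × ℤ)} {u v : ℤ × ℤ}
    (hu : -(r : ℤ) ≤ u.1 ∧ u.1 ≤ r + 1 ∧ -(r : ℤ) ≤ u.2 ∧ u.2 ≤ r) (hc : (u.1 + u.2 - c) % 2 = 0)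
    (hv : OnBd (-((R : ℤ) + 1)) (R + 1) (-((R : ℤ) + 1)) (R + 1) v) (h : Conn ω F u v) :
    ω ∈ AnnArm c r R := by
  obtain ⟨hv0, hv1, hv2, hv3, hv4⟩ := hv
  obtain ⟨z, hz, hz'⟩ := Conn.toBd (x₀ := -(R : ℤ)) (x₁ := R + 1) (y₀ := -(R : ℤ)) (y₁ := R) h
    (by omega) (by omega)
  have hpar := Conn.parity hz
  have hsub : (F ∩ (RF (-(R : ℤ)) (R + 1) (-(R : ℤ)) R : Set (ℤ × ℤ))) \
      (RF (-(r : ℤ)) (r + 1) (-(r : ℤ)) r : Set (ℤ × ℤ)) ⊆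
      ((DF R \ DF r : Finset (ℤ × ℤ)) : Set (ℤ × ℤ)) := by
    intro f hf
    rw [coe_sdiff]
    exact ⟨hf.1.2, hf.2⟩
  rcases last_exit (x₀ := -(r : ℤ)) (x₁ := r + 1) (y₀ := -(r : ℤ)) (y₁ := r) hz hu with h1 | h1
  · obtain ⟨hz0, hz1, hz2, hz3, hz4⟩ := hz'
    refine ⟨z, z, ?_, ?_, by omega, Relation.ReflTransGen.refl⟩
    · unfold OnBd; omega
    · unfold OnBd; omega
  · obtain ⟨w, hw, hwz⟩ := h1
    have hpar' := Conn.parity hwz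
    exact ⟨w, z, hw, hz', by omega, Conn.mono hsub hwz⟩

/-- Two arms from the centre to the boundary of the inner rectangle. -/
def Ein (r : ℕ) : Set Cfg := {ω | ToBd (-(r : ℤ)) (r + 1) (-(r : ℤ)) r ω (0, 0) ∧
  ToBd (-(r : ℤ)) (r + 1) (-(r : ℤ)) r ω (1, 0)}

theorem depOn_Ein (r : ℕ) : DepOn ((DF r : Finset (ℤ × ℤ)) : Set (ℤ × ℤ)) (Ein r) := by
  intro ω ω' h
  simp only [Ein, ToBd, Set.mem_ofPred_eq]
  unfold DF at h
  simp only [GridA.conn_iff _ h]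

theorem pr_Ein_le {C : ℝ} (hC : 0 < C) (h : ∀ R : ℕ, 1 ≤ R → p2 R ≤ C * (R : ℝ) ^ (-(1 / 4) : ℝ))
    (r : ℕ) : pr (DF r) (Ein r) ≤ (2 * C + 1) * ((r : ℝ) + 1) ^ (-(1 / 4) : ℝ) := by
  rcases Nat.eq_zero_or_pos r with rfl | hr
  · refine (pr_le_one _ _).trans ?_
    rw [Nat.cast_zero, zero_add, Real.one_rpow, mul_one]
    linarith
  · have hr0 : (0 : ℝ) < r := by exact_mod_cast hr
    have h1 : pr (DF r) (Ein r) ≤ pr (DF r) (twoArm r) := by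
      refine pr_mono _ ?_
      rintro ω ⟨⟨v, hv, hv'⟩, ⟨z, hz, hz'⟩⟩
      obtain ⟨h5, h6, h7, h8, h9⟩ := hv'
      obtain ⟨g5, g6, g7, g8, g9⟩ := hz'
      obtain ⟨w, hw, hw'⟩ := Conn.toBd (x₀ := -(r : ℤ)) (x₁ := r) (y₀ := -(r : ℤ)) (y₁ := r) hv
        (by simp only; omega) (by omega)
      obtain ⟨w', hw2, hw2'⟩ := Conn.toBd (x₀ := -(r : ℤ)) (x₁ := r) (y₀ := -(r : ℤ)) (y₁ := r) hz
        (by simp only; omega) (by omega)
      exact ⟨⟨w, Conn.mono Set.inter_subset_right hw, hw'⟩,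
        ⟨w', Conn.mono Set.inter_subset_right hw2, hw2'⟩⟩
    have hsub : RF (-(r : ℤ)) r (-(r : ℤ)) r ⊆ DF r := by
      intro f hf
      rw [mem_RF] at hf
      rw [mem_DF]
      omega
    rw [pr_eq_of_depOn (depOn_twoArm r) hsub] at h1
    refine h1.trans ((h r hr).trans ?_)
    have h2 : (r : ℝ) ^ (-(1 / 4) : ℝ) ≤ 2 * ((r : ℝ) + 1) ^ (-(1 / 4) : ℝ) :=
      rp_le hr0 (by positivity) (by norm_num)
        (by have : (1 : ℝ) ≤ r := by exact_mod_cast hr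
            linarith)
    have h3 : (0 : ℝ) ≤ ((r : ℝ) + 1) ^ (-(1 / 4) : ℝ) := by positivity
    calc C * (r : ℝ) ^ (-(1 / 4) : ℝ) ≤ C * (2 * ((r : ℝ) + 1) ^ (-(1 / 4) : ℝ)) :=
          mul_le_mul_of_nonneg_left h2 hC.le
      _ ≤ _ := by nlinarith

theorem p2_le_mul (r R : ℕ) (hrR : r ≤ R) : p2 ((R + 1 : ℕ) : ℤ) ≤ pr (DF r) (Ein r) * annP r R := by
  have hsub1 : DF r ∪ (DF R \ DF r) ⊆ RF (-((R + 1 : ℕ) : ℤ)) ((R + 1 : ℕ) : ℤ)
      (-((R + 1 : ℕ) : ℤ)) ((R + 1 : ℕ) : ℤ) := by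
    intro f hf
    rw [mem_union, mem_sdiff, mem_DF, mem_DF] at hf
    rw [mem_RF]
    push_cast
    omega
  have hdA : DepOn ((DF R \ DF r : Finset (ℤ × ℤ)) : Set (ℤ × ℤ)) (AnnArm 0 r R ∩ AnnArm 1 r R) :=
    depOn_inter' (depOn_AnnArm 0 r R) (depOn_AnnArm 1 r R)
  have hd : DepOn ((DF r ∪ (DF R \ DF r) : Finset (ℤ × ℤ)) : Set (ℤ × ℤ))
      (Ein r ∩ (AnnArm 0 r R ∩ AnnArm 1 r R)) := by
    refine depOn_inter' (depOn_mono' (depOn_Ein r) ?_) (depOn_mono' hdA ?_)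
    · rw [coe_union]; exact Set.subset_union_left
    · rw [coe_union]; exact Set.subset_union_right
  unfold annP
  rw [← pr_inter_of_disjoint (depOn_Ein r) hdA disjoint_sdiff, ← pr_eq_of_depOn hd hsub1]
  unfold p2
  refine pr_mono _ ?_
  rintro ω ⟨⟨v, hv, hv'⟩, ⟨z, hz, hz'⟩⟩
  have e : ((R + 1 : ℕ) : ℤ) = (R : ℤ) + 1 := by push_cast; ring
  rw [e] at hv' hz'
  have a0 : ω ∈ AnnArm 0 r R := annArm_of_conn hrR (by simp only; omega) (by simp) hv' hv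
  have a1 : ω ∈ AnnArm 1 r R := annArm_of_conn hrR (by simp only; omega) (by simp) hz' hz
  obtain ⟨h5, h6, h7, h8, h9⟩ := hv'
  obtain ⟨g5, g6, g7, g8, g9⟩ := hz'
  obtain ⟨w, hw, hw'⟩ := Conn.toBd (x₀ := -(r : ℤ)) (x₁ := r + 1) (y₀ := -(r : ℤ)) (y₁ := r) hv
    (by simp only; omega) (by omega)
  obtain ⟨w', hw2, hw2'⟩ := Conn.toBd (x₀ := -(r : ℤ)) (x₁ := r + 1) (y₀ := -(r : ℤ)) (y₁ := r) hz
    (by simp only; omega) (by omega)
  exact ⟨⟨⟨w, Conn.mono Set.inter_subset_right hw, hw'⟩,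
    ⟨w', Conn.mono Set.inter_subset_right hw2, hw2'⟩⟩, a0, a1⟩

theorem annP_ge : ∃ c : ℝ, 0 < c ∧ ∀ r R : ℕ, r ≤ R →
    c * (((r : ℝ) + 1) / (R + 1)) ^ (1 / 4 : ℝ) ≤ annP r R := by
  obtain ⟨c, C, hc, hC, h⟩ := p2Bounds
  refine ⟨c / (2 * C + 1), by positivity, fun r R hrR => ?_⟩
  have hR := (h (R + 1) (by omega)).1
  have h1 := p2_le_mul r R hrR
  have h2 := pr_Ein_le hC (fun R hR => (h R hR).2) r
  have h0 : 0 ≤ annP r R := pr_nonneg _ _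
  have h3 := (hR.trans h1).trans (mul_le_mul_of_nonneg_right h2 h0)
  push_cast at h3
  set x : ℝ := (r : ℝ) + 1 with hx
  set y : ℝ := (R : ℝ) + 1 with hy
  have hx0 : 0 < x := by positivity
  have hy0 : 0 < y := by positivity
  have e1 : y ^ (-(1 / 4) : ℝ) = (y ^ (1 / 4 : ℝ))⁻¹ := Real.rpow_neg hy0.le _
  have e2 : x ^ (-(1 / 4) : ℝ) = (x ^ (1 / 4 : ℝ))⁻¹ := Real.rpow_neg hx0.le _
  rw [e1, e2] at h3
  rw [Real.div_rpow hx0.le hy0.le]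
  have hX : 0 < x ^ (1 / 4 : ℝ) := by positivity
  have hY : 0 < y ^ (1 / 4 : ℝ) := by positivity
  have h4 : c * x ^ (1 / 4 : ℝ) * (y ^ (1 / 4 : ℝ))⁻¹ ≤ (2 * C + 1) * annP r R := by
    have := mul_le_mul_of_nonneg_left h3 hX.le
    have e3 : x ^ (1 / 4 : ℝ) * ((2 * C + 1) * (x ^ (1 / 4 : ℝ))⁻¹ * annP r R) =
        (2 * C + 1) * annP r R := by
      field_simp
    rw [e3] at this
    calc _ = x ^ (1 / 4 : ℝ) * (c * (y ^ (1 / 4 : ℝ))⁻¹) := by ring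
      _ ≤ _ := this
  rw [div_mul_eq_mul_div, div_le_iff₀ (by positivity)]
  calc _ = c * x ^ (1 / 4 : ℝ) * (y ^ (1 / 4 : ℝ))⁻¹ := by
        rw [div_eq_mul_inv]; ring
    _ ≤ _ := h4
    _ = _ := by ring

end Pool.Agent.AnnT
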