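import Pool.Agent.Lib.MP_6bd702_z.HPDefs

/-!
# The one-arm probability of half-plane annuli on the square lattice: definitions
-/

set_option autoImplicit false

namespace Pool.Agent.Perc

open Finset

open Classical in
/-- The probability that in critical percolation on the half-plane `{(a, b) : b ≤ a}` some vertex at
sup norm distance at most `r` from the origin is connected to a vertex at distance `R` by open edges
with both ends at distance at most `R`, but not both at distance at most `r`. -/
noncomputable def hpAnn (r R : ℕ) : ℝ :=
  (((hpE R \ hpE r).powerset.filter fun T => ∃ u ∈ HPV r, ∃ v ∈ clV T u,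
    v.1 = R ∨ v.1 = -(R : ℤ) ∨ v.2 = R ∨ v.2 = -(R : ℤ)).card : ℝ) / 2 ^ (hpE R \ hpE r).card

end Pool.Agent.Perc
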