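import Pool.Agent.Lib.MP_6bd702_z.HPFinal
import Pool.Agent.Lib.MP_6bd702_ann.HPAnnDefs

/-!
# The one-arm probability of half-plane annuli
-/

set_option autoImplicit false

namespace Pool.Agent.AnnH

open Finset Pool.Agent.Perc Pool.Agent.Perc.HPE

variable {ω : Cfg}

/-- An even path from the half-box of radius `s` to the sides of the half-box of radius `R`. -/
def HArm (s R : ℤ) : Set Cfg :=
  {ω | ∃ u v, (-s ≤ u.1 ∧ u.1 ≤ s ∧ 0 ≤ u.2 ∧ u.2 ≤ s) ∧ (u.1 + u.2 - 0) % 2 = 0 ∧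
    Conn ω (RF (-R) R 0 R) u v ∧ (v.1 = -R ∨ v.1 = R ∨ v.2 = R)}

theorem depOn_HArm (s R : ℤ) : DepOn (RF (-R) R 0 R : Set (ℤ × ℤ)) (HArm s R) := by
  intro ω ω' h
  simp only [HArm, Set.mem_ofPred_eq, GridA.conn_iff _ h]

theorem incD_HArm (s R : ℤ) : IncD (parD 0) (HArm s R) := by
  rintro ω ω' h ⟨u, v, h1, h2, h3, h4⟩
  exact ⟨u, v, h1, h2, incD_conn 0 _ h2 ω ω' h h3, h4⟩

/-- An arm from the inner half-box meets the half circuit. -/
theorem meet {s R : ℤ} (hs : 0 < s) (hR : 2 * s ≤ R) {u : ℤ × ℤ}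
    (hu : -s ≤ u.1 ∧ u.1 ≤ s ∧ 0 ≤ u.2 ∧ u.2 ≤ s) (hp : (u.1 + u.2) % 2 = 0)
    (h0 : ∃ w, Conn ω (RF (-(2 * s)) (2 * s) 0 (2 * s)) u w ∧
      (w.1 = -(2 * s) ∨ w.1 = 2 * s ∨ w.2 = 2 * s))
    {a a' b b' c c' : ℤ × ℤ}
    (ha : a.2 = 0 ∧ a'.2 = 2 * s ∧ (a.1 + a.2) % 2 = 0 ∧ Conn ω (RF (-(2 * s)) (-s) 0 (2 * s)) a a')
    (hb : b.2 = 0 ∧ b'.2 = 2 * s ∧ (b.1 + b.2) % 2 = 0 ∧ Conn ω (RF s (2 * s) 0 (2 * s)) b b')
    (hc : c.1 = -(2 * s) ∧ c'.1 = 2 * s ∧ (c.1 + c.2) % 2 = 0 ∧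
      Conn ω (RF (-(2 * s)) (2 * s) s (2 * s)) c c') :
    Conn ω (RF (-R) R 0 R) u c := by
  obtain ⟨w, hw, hwb⟩ := h0
  obtain ⟨a1, a2, a3, a4⟩ := ha
  obtain ⟨b1, b2, b3, b4⟩ := hb
  obtain ⟨c1, c2, c3, c4⟩ := hc
  have hpw := Conn.parity hw
  have hsub : ∀ {x₀ x₁ y₀ y₁ : ℤ}, -(2 * s) ≤ x₀ → x₁ ≤ 2 * s → 0 ≤ y₀ → y₁ ≤ 2 * s →
      (RF x₀ x₁ y₀ y₁ : Set (ℤ × ℤ)) ⊆ (RF (-R) R 0 R : Set (ℤ × ℤ)) := by
    intro x₀ x₁ y₀ y₁ h1 h2 h3 h4 f hf
    rw [Finset.mem_coe, HPB.mem_RF] at hf ⊢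
    omega
  have hca : Conn ω (RF (-R) R 0 R) c a :=
    HPB.cross (x₀ := -(2 * s)) (x₁ := -s) (y₀ := s) (y₁ := 2 * s)
      (F := RF (-(2 * s)) (2 * s) s (2 * s)) (F' := RF (-(2 * s)) (-s) 0 (2 * s))
      (by omega) (by omega) (HPB.inY le_rfl le_rfl) (HPB.inX le_rfl le_rfl)
      (hsub (by omega) (by omega) (by omega) (by omega))
      (hsub (by omega) (by omega) (by omega) (by omega))
      (hsub (by omega) (by omega) (by omega) (by omega))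
      (by omega) (by omega) (by omega) (by omega) (by omega) c4 a4
  have hcb : Conn ω (RF (-R) R 0 R) c b :=
    HPB.cross (x₀ := s) (x₁ := 2 * s) (y₀ := s) (y₁ := 2 * s)
      (F := RF (-(2 * s)) (2 * s) s (2 * s)) (F' := RF s (2 * s) 0 (2 * s))
      (by omega) (by omega) (HPB.inY le_rfl le_rfl) (HPB.inX le_rfl le_rfl)
      (hsub (by omega) (by omega) (by omega) (by omega))
      (hsub (by omega) (by omega) (by omega) (by omega))
      (hsub (by omega) (by omega) (by omega) (by omega))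
      (by omega) (by omega) (by omega) (by omega) (by omega) c4 b4
  have hwu : Conn ω (RF (-R) R 0 R) w u :=
    (Conn.mono (hsub (by omega) (by omega) (by omega) (by omega)) hw).symm
  rcases hwb with h1 | h1 | h1
  · have h2 : Conn ω (RF (-R) R 0 R) w a :=
      HPB.cross (x₀ := -(2 * s)) (x₁ := -s) (y₀ := 0) (y₁ := 2 * s)
        (F := RF (-(2 * s)) (2 * s) 0 (2 * s)) (F' := RF (-(2 * s)) (-s) 0 (2 * s))
        (by omega) (by omega) (HPB.inY le_rfl le_rfl) (HPB.inX le_rfl le_rfl)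
        (hsub (by omega) (by omega) (by omega) (by omega))
        (hsub (by omega) (by omega) (by omega) (by omega))
        (hsub (by omega) (by omega) (by omega) (by omega))
        (by omega) (by omega) (by omega) (by omega) (by omega) hw.symm a4
    exact hwu.symm.trans (h2.trans hca.symm)
  · have h2 : Conn ω (RF (-R) R 0 R) u b :=
      HPB.cross (x₀ := s) (x₁ := 2 * s) (y₀ := 0) (y₁ := 2 * s)
        (F := RF (-(2 * s)) (2 * s) 0 (2 * s)) (F' := RF s (2 * s) 0 (2 * s))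
        (by omega) (by omega) (HPB.inY le_rfl le_rfl) (HPB.inX le_rfl le_rfl)
        (hsub (by omega) (by omega) (by omega) (by omega))
        (hsub (by omega) (by omega) (by omega) (by omega))
        (hsub (by omega) (by omega) (by omega) (by omega))
        (by omega) (by omega) (by omega) (by omega) (by omega) hw b4
    exact h2.trans hcb.symm
  · have h2 : Conn ω (RF (-R) R 0 R) c u :=
      HPB.cross (x₀ := -(2 * s)) (x₁ := 2 * s) (y₀ := s) (y₁ := 2 * s)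
        (F := RF (-(2 * s)) (2 * s) s (2 * s)) (F' := RF (-(2 * s)) (2 * s) 0 (2 * s))
        (by omega) (by omega) (HPB.inY le_rfl le_rfl) (HPB.inX le_rfl le_rfl)
        (hsub (by omega) (by omega) (by omega) (by omega))
        (hsub (by omega) (by omega) (by omega) (by omega))
        (hsub (by omega) (by omega) (by omega) (by omega))
        (by omega) (by omega) (by omega) (by omega) (by omega) c4 hw
    exact h2.symm

/-- Gluing. -/
theorem glue {s R : ℤ} (hs : 0 < s) (hR : 2 * s ≤ R) (h1 : ω ∈ hpArm (2 * s))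
    (hL : ω ∈ BT 0 (-(2 * s)) (-s) 0 (2 * s)) (hB : ω ∈ BT 0 s (2 * s) 0 (2 * s))
    (hT : ω ∈ LR 0 (-(2 * s)) (2 * s) s (2 * s)) (h3 : ω ∈ HArm s R) : ω ∈ hpArm R := by
  obtain ⟨a, a', a1, a2, a3, a4, a5, a6⟩ := hL
  obtain ⟨b, b', b1, b2, b3, b4, b5, b6⟩ := hB
  obtain ⟨c, c', c1, c2, c3, c4, c5, c6⟩ := hT
  obtain ⟨u, v, hu, hp, huv, hv⟩ := h3
  have ha : a.2 = 0 ∧ a'.2 = 2 * s ∧ (a.1 + a.2) % 2 = 0 ∧
      Conn ω (RF (-(2 * s)) (-s) 0 (2 * s)) a a' := ⟨a1, a4, by omega, a6⟩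
  have hb : b.2 = 0 ∧ b'.2 = 2 * s ∧ (b.1 + b.2) % 2 = 0 ∧
      Conn ω (RF s (2 * s) 0 (2 * s)) b b' := ⟨b1, b4, by omega, b6⟩
  have hc : c.1 = -(2 * s) ∧ c'.1 = 2 * s ∧ (c.1 + c.2) % 2 = 0 ∧
      Conn ω (RF (-(2 * s)) (2 * s) s (2 * s)) c c' := ⟨c1, c4, by omega, c6⟩
  have m1 := meet hs hR (u := (0, 0)) (by simp only; omega) (by simp) h1 ha hb hc
  have m2 := meet hs hR (u := u) hu (by omega) (by
    obtain ⟨w, hw, hwb⟩ := Conn.toSides (x₀ := -(2 * s)) (x₁ := 2 * s) (y₀ := 0) (y₁ := 2 * s) huv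
      (fun f hf => by
        rw [Finset.mem_coe, HPB.mem_RF] at hf
        omega) (by omega) (by omega)
    exact ⟨w, Conn.mono Set.inter_subset_right hw, hwb⟩) ha hb hc
  exact ⟨v, m1.trans (m2.symm.trans huv), hv⟩

theorem pr_HArm_le : ∃ c : ℝ, 0 < c ∧ ∀ s R : ℤ, 0 < s → 2 * s ≤ R →
    pArm (2 * s) * (c * pr (RF (-R) R 0 R) (HArm s R)) ≤ pArm R := by
  obtain ⟨c, hc, h⟩ := rswF 4
  obtain ⟨c', hc', h'⟩ := rswF' 2
  refine ⟨c' * (c' * c), by positivity, fun s R hs hR => ?_⟩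
  set W := RF (-R) R 0 R with hW
  have s0 : RF (-(2 * s)) (2 * s) 0 (2 * s) ⊆ W := by
    intro f hf; rw [hW]; rw [mem_RFi] at hf ⊢; omega
  have s1 : RF (-(2 * s)) (-s) 0 (2 * s) ⊆ W := by
    intro f hf; rw [hW]; rw [mem_RFi] at hf ⊢; omega
  have s2 : RF s (2 * s) 0 (2 * s) ⊆ W := by
    intro f hf; rw [hW]; rw [mem_RFi] at hf ⊢; omega
  have s3 : RF (-(2 * s)) (2 * s) s (2 * s) ⊆ W := by
    intro f hf; rw [hW]; rw [mem_RFi] at hf ⊢; omega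
  have p0 : pr W (hpArm (2 * s)) = pArm (2 * s) := by
    unfold pArm
    exact pr_eq_of_depOn (depOn_hpArm (2 * s)) s0
  have p1 : c' ≤ pr W (BT 0 (-(2 * s)) (-s) 0 (2 * s)) := by
    rw [pr_BT_window s1]
    exact h' _ _ _ _ _ (by omega) (by omega) (by push_cast; omega)
  have p2 : c' ≤ pr W (BT 0 s (2 * s) 0 (2 * s)) := by
    rw [pr_BT_window s2]
    exact h' _ _ _ _ _ (by omega) (by omega) (by push_cast; omega)
  have p3 : c ≤ pr W (LR 0 (-(2 * s)) (2 * s) s (2 * s)) := by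
    rw [pr_LR_window s3]
    exact h _ _ _ _ _ (by omega) (by omega) (by push_cast; omega)
  have d0 := depOn_mono' (depOn_hpArm (2 * s)) (coe_subset.2 s0)
  have d1 := depOn_mono' (depOn_BT 0 (-(2 * s)) (-s) 0 (2 * s)) (coe_subset.2 s1)
  have d2 := depOn_mono' (depOn_BT 0 s (2 * s) 0 (2 * s)) (coe_subset.2 s2)
  have d3 := depOn_mono' (depOn_LR 0 (-(2 * s)) (2 * s) s (2 * s)) (coe_subset.2 s3)
  have d4 : DepOn (W : Set (ℤ × ℤ)) (HArm s R) := depOn_HArm s R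
  have i3 : IncD (parD 0) (LR 0 (-(2 * s)) (2 * s) s (2 * s)) := incD_LR _ _ _ _ _
  have i4 := incD_HArm s R
  have q3 := harris _ d3 d4 i3 i4
  have q2 := harris _ d2 (depOn_inter' d3 d4) (incD_BT' _ _ _ _ _) (incD_inter' i3 i4)
  have q1 := harris _ d1 (depOn_inter' d2 (depOn_inter' d3 d4)) (incD_BT' _ _ _ _ _)
    (incD_inter' (incD_BT' 0 s (2 * s) 0 (2 * s)) (incD_inter' i3 i4))
  have q0 := harris _ d0 (depOn_inter' d1 (depOn_inter' d2 (depOn_inter' d3 d4)))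
    (PlanarB.incD_hpArm (2 * s))
    (incD_inter' (incD_BT' 0 (-(2 * s)) (-s) 0 (2 * s))
      (incD_inter' (incD_BT' 0 s (2 * s) 0 (2 * s)) (incD_inter' i3 i4)))
  have n4 : 0 ≤ pr W (HArm s R) := pr_nonneg _ _
  have r3 : c * pr W (HArm s R) ≤ _ := (mul_le_mul_of_nonneg_right p3 n4).trans q3
  have r2 : c' * (c * pr W (HArm s R)) ≤ _ :=
    (mul_le_mul p2 r3 (by positivity) (pr_nonneg _ _)).trans q2
  have r1 : c' * (c' * (c * pr W (HArm s R))) ≤ _ :=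
    (mul_le_mul p1 r2 (by positivity) (pr_nonneg _ _)).trans q1
  have r0 := (mul_le_mul_of_nonneg_left r1 (pr_nonneg W (hpArm (2 * s)))).trans q0
  rw [p0] at r0
  have hfin : pr W (hpArm (2 * s) ∩ (BT 0 (-(2 * s)) (-s) 0 (2 * s) ∩ (BT 0 s (2 * s) 0 (2 * s) ∩
      (LR 0 (-(2 * s)) (2 * s) s (2 * s) ∩ HArm s R)))) ≤ pArm R := by
    unfold pArm
    exact pr_mono _ fun ω h => glue hs hR h.1 h.2.1 h.2.2.1 h.2.2.2.1 h.2.2.2.2
  calc _ = pArm (2 * s) * (c' * (c' * (c * pr W (HArm s R)))) := by ring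
    _ ≤ _ := r0
    _ ≤ _ := hfin

/-- The event of `hpAnn`. -/
def arm2 (r R : ℕ) : Set (Finset Edg) :=
  {T | ∃ u ∈ HPV r, ∃ v ∈ clV T u, v.1 = R ∨ v.1 = -(R : ℤ) ∨ v.2 = R ∨ v.2 = -(R : ℤ)}

theorem phiE_mem2 {r R : ℕ} {e : Edg} (he : e ∈ hpE R \ hpE r) :
    phiE e ∈ RF (-(2 * (R : ℤ))) (2 * R) 0 (2 * R) := phiE_mem (mem_sdiff.1 he).1

theorem hpAnn_eq (r R : ℕ) :
    hpAnn r R = pr (RF (-(2 * (R : ℤ))) (2 * R) 0 (2 * R))
      {ω | cfgS (hpE R \ hpE r) ω ∈ arm2 r R} := by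
  classical
  rw [pr_cfgS (fun e he => phiE_mem2 he), hpAnn]
  rfl

theorem cfgS_mono {E E' : Finset Edg} (h : E ⊆ E') : cfgS E ω ⊆ cfgS E' ω := by
  intro e he
  rw [mem_cfgS] at he ⊢
  exact ⟨h he.1, he.2⟩

theorem adjT_mono {T T' : Finset Edg} (h : T ⊆ T') {u v : ℤ × ℤ} (hv : AdjT T u v) :
    AdjT T' u v := by
  obtain ⟨e, he, h1⟩ := hv
  exact ⟨e, h he, h1⟩

theorem conn_of_clV2 {n : ℕ} {T : Finset Edg} (hT : T ⊆ cfgS (hpE n) ω) {u v : ℤ × ℤ}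
    (h : v ∈ clV T u) : Conn ω {f | 0 ≤ f.2} (phiV u) (phiV v) := by
  unfold clV at h
  simp only [Set.mem_ofPred_eq] at h
  induction h with
  | refl => exact Relation.ReflTransGen.refl
  | tail _ hb ih => exact Relation.ReflTransGen.tail ih (bond_of_adj (n := n) (adjT_mono hT hb))

theorem clV_mem2 {n : ℕ} {T : Finset Edg} (hT : T ⊆ hpE n) {u v : ℤ × ℤ} (hu : u ∈ HPV n)
    (h : v ∈ clV T u) : v ∈ HPV n := by
  unfold clV at h
  simp only [Set.mem_ofPred_eq] at h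
  induction h with
  | refl => exact hu
  | tail _ hb _ =>
    obtain ⟨e, he, h1 | h1⟩ := hb
    · rw [← h1.2]
      exact (mem_hpE.1 (hT he)).2
    · rw [← h1.1]
      exact (mem_hpE.1 (hT he)).1

theorem hpAnn_le_HArm {r R : ℕ} {s : ℤ} (hs : 2 * (r : ℤ) ≤ s) (hsR : s ≤ R) :
    hpAnn r R ≤ pr (RF (-(R : ℤ)) R 0 R) (HArm s R) := by
  rw [hpAnn_eq]
  have hsub : RF (-(R : ℤ)) R 0 R ⊆ RF (-(2 * (R : ℤ))) (2 * R) 0 (2 * R) := by
    intro f hf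
    rw [mem_RFi] at hf ⊢
    omega
  rw [← pr_eq_of_depOn (depOn_HArm s R) hsub]
  refine pr_mono _ fun ω hω => ?_
  obtain ⟨u, hu, v, hv, hvb⟩ := hω
  have hT : cfgS (hpE R \ hpE r) ω ⊆ cfgS (hpE R) ω := cfgS_mono sdiff_subset
  have hT' : cfgS (hpE R \ hpE r) ω ⊆ hpE R := fun e he => (mem_sdiff.1 (mem_cfgS.1 he).1).1
  have hu' := mem_HPV.1 hu
  have hm := mem_HPV.1 (clV_mem2 hT' (mem_HPV.2 (by omega)) hv)
  have hc := conn_of_clV2 hT hv
  obtain ⟨w, hw, hwb⟩ := Conn.toSides (x₀ := -(R : ℤ)) (x₁ := R) (y₀ := 0) (y₁ := R) hc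
    (fun f hf => hf) (by simp only [phiV]; omega) (by simp only [phiV]; omega)
  exact ⟨phiV u, w, by simp only [phiV]; omega, by simp only [phiV]; omega,
    Conn.mono Set.inter_subset_right hw, hwb⟩

theorem hpAnn_le : ∃ C : ℝ, 0 < C ∧ ∀ r R : ℕ, r ≤ R →
    hpAnn r R ≤ C * (((r : ℝ) + 1) / (R + 1)) ^ (1 / 3 : ℝ) := by
  obtain ⟨c, hc, h⟩ := pr_HArm_le
  obtain ⟨c₁, C₁, hc₁, h₁⟩ := halfPlane_arm
  obtain ⟨C₂, h₂⟩ := pArm_le rswF rswF'
  set C₃ : ℝ := |C₂| with hC₃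
  have hC₃0 : 0 ≤ C₃ := abs_nonneg _
  refine ⟨2 * (C₃ / (c * c₁)) + 2, by positivity, fun r R hrR => ?_⟩
  set x : ℝ := ((r : ℝ) + 1) / (R + 1) with hx
  have hx0 : 0 < x := by positivity
  have hxp : 0 ≤ x ^ (1 / 3 : ℝ) := by positivity
  have h8 : (8 : ℝ) ^ (1 / 3 : ℝ) = 2 := by
    rw [show (8 : ℝ) = 2 ^ (3 : ℝ) by norm_num, ← Real.rpow_mul (by norm_num)]
    norm_num
  rcases Nat.lt_or_ge R (4 * r + 2) with hlt | hge
  · have h1 : hpAnn r R ≤ 1 := by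
      rw [hpAnn_eq]
      exact pr_le_one _ _
    have h2 : 1 ≤ 8 * x := by
      rw [hx, mul_div_assoc', le_div_iff₀ (by positivity), one_mul]
      have : (R : ℝ) + 1 ≤ 4 * r + 2 := by exact_mod_cast hlt
      have h0 : (0 : ℝ) ≤ r := Nat.cast_nonneg r
      linarith
    have h3 : 1 ≤ 2 * x ^ (1 / 3 : ℝ) := by
      rw [← h8, ← Real.mul_rpow (by norm_num) hx0.le]
      exact Real.one_le_rpow h2 (by norm_num)
    have h4 : 0 ≤ 2 * (C₃ / (c * c₁)) * x ^ (1 / 3 : ℝ) := by positivity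
    linarith
  · set s : ℤ := 2 * (r : ℤ) + 1 with hs
    have hR0 : (0 : ℝ) < R := by exact_mod_cast (by omega : 0 < R)
    have h1 := hpAnn_le_HArm (r := r) (R := R) (s := s) (by omega) (by omega)
    have h2 := h s R (by omega) (by omega)
    have h3 : pArm (R : ℤ) ≤ C₃ * (R : ℝ) ^ (-(1 / 3 : ℝ)) :=
      (h₂ R (by omega)).trans (mul_le_mul_of_nonneg_right (le_abs_self _) (by positivity))
    have h4 : c₁ * ((4 * r + 2 : ℕ) : ℝ) ^ (-(1 / 3 : ℝ)) ≤ pArm (2 * s) := by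
      have e : (2 * s : ℤ) = ((4 * r + 2 : ℕ) : ℤ) := by rw [hs]; push_cast; ring
      rw [e]
      exact (h₁ (4 * r + 2) (by omega)).1.trans (hpP_le_pArm (by omega))
    set P := pr (RF (-(R : ℤ)) R 0 R) (HArm s R) with hP
    have hP0 : 0 ≤ P := pr_nonneg _ _
    set a : ℝ := ((4 * r + 2 : ℕ) : ℝ) with ha
    have ha0 : 0 < a := by rw [ha]; positivity
    have h5 : c₁ * a ^ (-(1 / 3 : ℝ)) * (c * P) ≤ C₃ * (R : ℝ) ^ (-(1 / 3 : ℝ)) :=
      (mul_le_mul_of_nonneg_right h4 (by positivity)).trans (h2.trans h3)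
    have h6 : P ≤ C₃ / (c * c₁) * (a / R) ^ (1 / 3 : ℝ) := by
      rw [Real.rpow_neg ha0.le, Real.rpow_neg hR0.le] at h5
      rw [Real.div_rpow ha0.le hR0.le]
      have hA : 0 < a ^ (1 / 3 : ℝ) := by positivity
      have hB : 0 < (R : ℝ) ^ (1 / 3 : ℝ) := by positivity
      rw [div_mul_div_comm, le_div_iff₀ (by positivity)]
      have h7 := mul_le_mul_of_nonneg_left h5 (mul_pos hA hB).le
      have e1 : a ^ (1 / 3 : ℝ) * (R : ℝ) ^ (1 / 3 : ℝ) * (c₁ * (a ^ (1 / 3 : ℝ))⁻¹ * (c * P)) =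
          P * (c * c₁ * (R : ℝ) ^ (1 / 3 : ℝ)) := by
        field_simp
      have e2 : a ^ (1 / 3 : ℝ) * (R : ℝ) ^ (1 / 3 : ℝ) * (C₃ * ((R : ℝ) ^ (1 / 3 : ℝ))⁻¹) =
          C₃ * a ^ (1 / 3 : ℝ) := by
        field_simp
      rw [e1, e2] at h7
      exact h7
    have h9 : (a / R) ^ (1 / 3 : ℝ) ≤ 2 * x ^ (1 / 3 : ℝ) := by
      rw [← h8, ← Real.mul_rpow (by norm_num) hx0.le]
      refine Real.rpow_le_rpow (by positivity) ?_ (by norm_num)
      rw [hx, mul_div_assoc', div_le_div_iff₀ hR0 (by positivity), ha]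
      push_cast
      have h0 : (0 : ℝ) ≤ r := Nat.cast_nonneg r
      have h10 : (1 : ℝ) ≤ R := by exact_mod_cast (by omega : 1 ≤ R)
      nlinarith
    have h11 : 0 ≤ C₃ / (c * c₁) := by positivity
    calc hpAnn r R ≤ P := h1
      _ ≤ C₃ / (c * c₁) * (a / R) ^ (1 / 3 : ℝ) := h6
      _ ≤ C₃ / (c * c₁) * (2 * x ^ (1 / 3 : ℝ)) := mul_le_mul_of_nonneg_left h9 h11
      _ ≤ (2 * (C₃ / (c * c₁)) + 2) * x ^ (1 / 3 : ℝ) := by nlinarith

theorem first_exit {r R : ℕ} {T : Finset Edg} (hT : T ⊆ hpE R) {v : ℤ × ℤ}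
    (h : v ∈ clV T (0, 0)) : (v ∈ HPV r ∧ v ∈ clV (T ∩ hpE r) (0, 0)) ∨ T ∩ hpE r ∈ arm r := by
  unfold clV at h
  simp only [Set.mem_ofPred_eq] at h
  induction h with
  | refl => exact Or.inl ⟨by rw [mem_HPV]; simp, Relation.ReflTransGen.refl⟩
  | @tail v v' _ hb ih =>
    rcases ih with ⟨h1, h2⟩ | ih
    · by_cases hv' : v' ∈ HPV r
      · left
        obtain ⟨e, he, h3⟩ := hb
        refine ⟨hv', Relation.ReflTransGen.tail h2 ⟨e, mem_inter.2 ⟨he, mem_hpE.2 ?_⟩, h3⟩⟩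
        rcases h3 with ⟨h4, h5⟩ | ⟨h4, h5⟩
        · rw [h4, h5]; exact ⟨h1, hv'⟩
        · rw [h4, h5]; exact ⟨hv', h1⟩
      · right
        refine ⟨v, h2, ?_⟩
        obtain ⟨⟨x, y, b⟩, he, h3⟩ := hb
        obtain ⟨g1, g2⟩ := mem_hpE.1 (hT he)
        rw [mem_HPV] at g1 g2 h1 hv'
        cases b <;> simp only [tl, Perc.hd, Bool.false_eq_true, if_false, if_true] at h3 g1 g2 <;>
          rcases h3 with ⟨rfl, rfl⟩ | ⟨rfl, rfl⟩ <;> simp only at g1 g2 h1 hv' ⊢ <;> omega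
    · exact Or.inr ih

theorem last_exit {r : ℕ} {T : Finset Edg} {v : ℤ × ℤ}
    (h : v ∈ clV T (0, 0)) : v ∈ HPV r ∨ ∃ u ∈ HPV r, v ∈ clV (T \ hpE r) u := by
  unfold clV at h
  simp only [Set.mem_ofPred_eq] at h
  induction h with
  | refl => exact Or.inl (by rw [mem_HPV]; simp)
  | @tail v v' _ hb ih =>
    obtain ⟨e, he, h3⟩ := hb
    by_cases h4 : e ∈ hpE r
    · left
      obtain ⟨g1, g2⟩ := mem_hpE.1 h4
      rcases h3 with ⟨h5, h6⟩ | ⟨h5, h6⟩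
      · rw [← h6]; exact g2
      · rw [← h5]; exact g1
    · right
      have hadj : AdjT (T \ hpE r) v v' := ⟨e, mem_sdiff.2 ⟨he, h4⟩, h3⟩
      rcases ih with ih | ⟨u, hu, hu'⟩
      · exact ⟨v, ih, Relation.ReflTransGen.single hadj⟩
      · exact ⟨u, hu, Relation.ReflTransGen.tail hu' hadj⟩

theorem hpP_le_mul {r R : ℕ} (hrR : r ≤ R) : hpP R ≤ hpP r * hpAnn r R := by
  classical
  have hEs : hpE r ⊆ hpE R := by
    intro e he
    rw [mem_hpE, mem_HPV, mem_HPV] at he ⊢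
    omega
  have hdisj : Disjoint ((hpE r).image phiE) ((hpE R \ hpE r).image phiE) := by
    rw [Finset.disjoint_left]
    intro f h1 h2
    obtain ⟨e, he, rfl⟩ := mem_image.1 h1
    obtain ⟨e', he', h3⟩ := mem_image.1 h2
    rw [phiE_injective h3] at he'
    exact (mem_sdiff.1 he').2 he
  have e1 : hpP r = pr ((hpE r).image phiE) {ω | cfgS (hpE r) ω ∈ arm r} := by
    rw [pr_cfgS (fun e he => mem_image_of_mem _ he), hpP]
    rfl
  have e2 : hpAnn r R = pr ((hpE R \ hpE r).image phiE)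
      {ω | cfgS (hpE R \ hpE r) ω ∈ arm2 r R} := by
    rw [pr_cfgS (fun e he => mem_image_of_mem _ he), hpAnn]
    rfl
  have e3 : hpP R = pr ((hpE r).image phiE ∪ (hpE R \ hpE r).image phiE)
      {ω | cfgS (hpE R) ω ∈ arm R} := by
    rw [pr_cfgS (fun e he => by
      rw [← image_union, union_sdiff_of_subset hEs]
      exact mem_image_of_mem _ he), hpP]
    rfl
  rw [e1, e2, e3, ← pr_inter_of_disjoint (depOn_cfgS _ _) (depOn_cfgS _ _) hdisj]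
  refine pr_mono _ fun ω hω => ?_
  have hT : cfgS (hpE R) ω ⊆ hpE R := fun e he => (mem_cfgS.1 he).1
  have t1 : cfgS (hpE R) ω ∩ hpE r = cfgS (hpE r) ω := by
    ext e
    rw [mem_inter, mem_cfgS, mem_cfgS]
    exact ⟨fun h => ⟨h.2, h.1.2⟩, fun h => ⟨⟨hEs h.1, h.2⟩, h.1⟩⟩
  have t2 : cfgS (hpE R) ω \ hpE r = cfgS (hpE R \ hpE r) ω := by
    ext e
    rw [mem_sdiff, mem_cfgS, mem_cfgS, mem_sdiff]
    tauto
  obtain ⟨v, hv, hvb⟩ := hω
  constructor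
  · show cfgS (hpE r) ω ∈ arm r
    rw [← t1]
    rcases first_exit (r := r) hT hv with ⟨h1, h2⟩ | h1
    · refine ⟨v, h2, ?_⟩
      rw [mem_HPV] at h1
      omega
    · exact h1
  · show cfgS (hpE R \ hpE r) ω ∈ arm2 r R
    rw [← t2]
    rcases last_exit (r := r) hv with h1 | ⟨u, hu, hu'⟩
    · exact ⟨v, h1, v, Relation.ReflTransGen.refl, hvb⟩
    · exact ⟨u, hu, v, hu', hvb⟩

theorem hpAnn_ge : ∃ c : ℝ, 0 < c ∧ ∀ r R : ℕ, r ≤ R →
    c * (((r : ℝ) + 1) / (R + 1)) ^ (1 / 3 : ℝ) ≤ hpAnn r R := by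
  obtain ⟨c, C, hc, h⟩ := halfPlane_arm
  have hC1 : 0 < C := by
    have h1 := (h 1 le_rfl).1.trans (h 1 le_rfl).2
    rw [Nat.cast_one, Real.one_rpow, mul_one, mul_one] at h1
    linarith
  have hp1 : ∀ n : ℕ, hpP n ≤ 1 := fun n => by
    rw [hpP_eq]
    exact pr_le_one _ _
  have h8 : (8 : ℝ) ^ (1 / 3 : ℝ) = 2 := by
    rw [show (8 : ℝ) = 2 ^ (3 : ℝ) by norm_num, ← Real.rpow_mul (by norm_num)]
    norm_num
  refine ⟨min c 1 / (2 * C + 1), by positivity, fun r R hrR => ?_⟩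
  have h1 := hpP_le_mul hrR
  have h0 : 0 ≤ hpAnn r R := by
    rw [hpAnn_eq]
    exact pr_nonneg _ _
  set x : ℝ := (r : ℝ) + 1 with hx
  set y : ℝ := (R : ℝ) + 1 with hy
  have hx0 : 0 < x := by positivity
  have hy0 : 0 < y := by positivity
  have hX : 0 < x ^ (1 / 3 : ℝ) := by positivity
  have hY : 0 < y ^ (1 / 3 : ℝ) := by positivity
  -- the outer arm
  have hR : min c 1 * (y ^ (1 / 3 : ℝ))⁻¹ ≤ hpP R := by
    rcases Nat.eq_zero_or_pos R with h2 | h2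
    · have h3 : hpP 0 = 1 := by
        have h4 : hpE 0 = ∅ := by
          rw [Finset.eq_empty_iff_forall_notMem]
          rintro ⟨a, b, d⟩ he
          obtain ⟨g1, g2⟩ := mem_hpE.1 he
          rw [mem_HPV] at g1 g2
          cases d <;> simp only [tl, Perc.hd, Bool.false_eq_true, if_false, if_true] at g1 g2 <;>
            push_cast at g1 g2 <;> omega
        classical
        unfold hpP
        rw [h4, Finset.powerset_empty, Finset.filter_true_of_mem]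
        · simp
        · intro T hT
          exact ⟨(0, 0), Relation.ReflTransGen.refl, Or.inl (by simp)⟩
      rw [h2] at hy ⊢
      rw [h3, hy]
      simp
    · have hR0 : (0 : ℝ) < R := by exact_mod_cast h2
      refine le_trans ?_ (h R h2).1
      rw [← Real.rpow_neg hy0.le]
      have h3 : y ^ (-(1 / 3) : ℝ) ≤ (R : ℝ) ^ (-(1 / 3) : ℝ) :=
        Real.rpow_le_rpow_of_nonpos hR0 (by rw [hy]; linarith) (by norm_num)
      exact mul_le_mul (min_le_left _ _) h3 (by positivity) hc.le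
  -- the inner arm
  have hr : hpP r ≤ (2 * C + 1) * (x ^ (1 / 3 : ℝ))⁻¹ := by
    rcases Nat.eq_zero_or_pos r with h2 | h2
    · refine (hp1 r).trans ?_
      have h3 : x = 1 := by rw [hx, h2]; simp
      rw [h3, Real.one_rpow, inv_one, mul_one]
      linarith
    · have hr0 : (0 : ℝ) < r := by exact_mod_cast h2
      have hr1 : (1 : ℝ) ≤ r := by exact_mod_cast h2
      refine (h r h2).2.trans ?_
      have h3 : x ^ (1 / 3 : ℝ) ≤ 2 * (r : ℝ) ^ (1 / 3 : ℝ) := by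
        rw [← h8, ← Real.mul_rpow (by norm_num) hr0.le]
        exact Real.rpow_le_rpow hx0.le (by linarith) (by norm_num)
      rw [Real.rpow_neg hr0.le]
      have hrp : 0 < (r : ℝ) ^ (1 / 3 : ℝ) := by positivity
      rw [← div_eq_mul_inv, ← div_eq_mul_inv, div_le_div_iff₀ hrp hX]
      nlinarith
  have h3 := (hR.trans h1).trans (mul_le_mul_of_nonneg_right hr h0)
  rw [Real.div_rpow hx0.le hy0.le, div_mul_div_comm, div_le_iff₀ (by positivity)]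
  have h4 := mul_le_mul_of_nonneg_left h3 (mul_pos hX hY).le
  have e1 : x ^ (1 / 3 : ℝ) * y ^ (1 / 3 : ℝ) * (min c 1 * (y ^ (1 / 3 : ℝ))⁻¹) =
      min c 1 * x ^ (1 / 3 : ℝ) := by
    field_simp
  have e2 : x ^ (1 / 3 : ℝ) * y ^ (1 / 3 : ℝ) * ((2 * C + 1) * (x ^ (1 / 3 : ℝ))⁻¹ * hpAnn r R) =
      hpAnn r R * ((2 * C + 1) * y ^ (1 / 3 : ℝ)) := by
    field_simp
  rw [e1, e2] at h4
  exact h4

end Pool.Agent.AnnH
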